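import Mathlib

/-!
# Minimum degree of variants of full transformation semigroups

We disprove the formula `μ(T_n^a) = 2 n - rank a` for ranks at least `2`: for `n = 106` and the map
`a` of rank `2` with kernel classes `{0, ..., 104}` and `{105}`, the variant `T_n^a` embeds in the
full transformation semigroup of degree `208 < 210 = 2 n - 2`.
-/

set_option autoImplicit false

namespace Pool.Agent.Results.MP_e4b752_al.MinDegree

/-- The variant of the full transformation semigroup `T_n` at `a`: the set of all maps
`Fin n → Fin n` with the sandwich product `x a y`. -/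
structure Variant (n : ℕ) (a : Function.End (Fin n)) : Type where
  /-- the underlying map -/
  val : Function.End (Fin n)

instance (n : ℕ) (a : Function.End (Fin n)) : Semigroup (Variant n a) where
  mul x y := ⟨x.val * a * y.val⟩
  mul_assoc x y z := congrArg Variant.mk (by
    change x.val * a * y.val * a * z.val = x.val * a * (y.val * a * z.val)
    simp only [mul_assoc])

/-- The minimum degree of a semigroup `S`: the least `m ≥ 1` such that `S` embeds in the full
transformation semigroup `T_m` of all maps `Fin m → Fin m`. -/
noncomputable def minDegree (S : Type) [Semigroup S] : ℕ :=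
  sInf {m : ℕ | 1 ≤ m ∧ ∃ φ : S →ₙ* Function.End (Fin m), Function.Injective φ}

/-- The rank of a map: the size of its image. -/
noncomputable def rank {n : ℕ} (a : Function.End (Fin n)) : ℕ := (Set.range a).ncard

/-- An embedding in the maps of a finite type of size `m` gives a bound on the minimum degree. -/
theorem minDegree_le {S : Type} [Semigroup S] (M : Type) [Fintype M] (h1 : 1 ≤ Fintype.card M)
    (φ : S → M → M) (hφ : ∀ x y, φ (x * y) = φ x ∘ φ y) (hinj : Function.Injective φ) :
    minDegree S ≤ Fintype.card M := by
  apply Nat.sInf_le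
  refine ⟨h1, ?_⟩
  let e : M ≃ Fin (Fintype.card M) := Fintype.equivFin M
  refine ⟨⟨fun x => (e ∘ φ x ∘ e.symm : Fin (Fintype.card M) → Fin (Fintype.card M)), ?_⟩, ?_⟩
  · intro x y
    funext i
    change e (φ (x * y) (e.symm i)) = e (φ x (e.symm (e (φ y (e.symm i)))))
    rw [hφ, Equiv.symm_apply_apply]
    rfl
  · intro x y hxy
    apply hinj
    funext i
    have := congrFun hxy (e i)
    change e (φ x (e.symm (e i))) = e (φ y (e.symm (e i))) at this
    rw [Equiv.symm_apply_apply] at this
    exact e.injective this

/-- The map `a`, as a function. -/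
def f (i : Fin 106) : Fin 106 := if i.val = 105 then 105 else 104

/-- The map `a`. -/
def a : Function.End (Fin 106) := f

/-- The first quotient. -/
def q₁ (i : Fin 106) : Fin 36 := ⟨i.val / 3, by omega⟩

/-- The second quotient. -/
def q₂ (i : Fin 106) : Fin 4 := if i.val = 105 then 3 else ⟨i.val % 3, by omega⟩

/-- The map `a` on the first quotient. -/
def a₁ (u : Fin 36) : Fin 106 := if u.val = 35 then 105 else 104

/-- The map `a` on the second quotient. -/
def a₂ (u : Fin 4) : Fin 106 := if u.val = 3 then 105 else 104

theorem a₁_q₁ (i : Fin 106) : a₁ (q₁ i) = f i := by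
  revert i; decide +kernel

theorem a₂_q₂ (i : Fin 106) : a₂ (q₂ i) = f i := by
  revert i; decide +kernel

theorem q_inj (i j : Fin 106) (h1 : q₁ i = q₁ j) (h2 : q₂ i = q₂ j) : i = j := by
  have h1' : i.val / 3 = j.val / 3 := congrArg Fin.val h1
  have h2' : (q₂ i).val = (q₂ j).val := congrArg Fin.val h2
  unfold q₂ at h2'
  apply Fin.ext
  split_ifs at h2' with h3 h4 h4
  · omega
  · have : (3 : Fin 4).val = 3 := rfl
    simp only [this] at h2'
    omega
  · have : (3 : Fin 4).val = 3 := rfl
    simp only [this] at h2'
    omega
  · simp only at h2'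
    omega

/-- The set acted on. -/
abbrev M : Type := (Fin 36 ⊕ Fin 104) ⊕ ((Fin 4 × Fin 4) ⊕ Fin 52)

/-- The action of a map on `M`. -/
def act (x : Fin 106 → Fin 106) : M → M
  | Sum.inl (Sum.inl u) => Sum.inl (Sum.inl (q₁ (x (a₁ u))))
  | Sum.inl (Sum.inr i) => Sum.inl (Sum.inl (q₁ (x ⟨i.val, by omega⟩)))
  | Sum.inr (Sum.inl u) => Sum.inr (Sum.inl (q₂ (x (a₂ u.1)), q₂ (x (a₂ u.2))))
  | Sum.inr (Sum.inr j) =>
      Sum.inr (Sum.inl (q₂ (x ⟨2 * j.val, by omega⟩), q₂ (x ⟨2 * j.val + 1, by omega⟩)))

theorem act_mul (x y : Fin 106 → Fin 106) : act (fun i => x (f (y i))) = act x ∘ act y := by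
  funext w
  rcases w with (u | i) | (u | j)
  · simp [act, a₁_q₁]
  · simp [act, a₁_q₁]
  · simp [act, a₂_q₂]
  · simp [act, a₂_q₂]

theorem act_inj (x y : Fin 106 → Fin 106) (h : act x = act y) : x = y := by
  funext i
  apply q_inj
  · rcases Nat.lt_or_ge i.val 104 with hi | hi
    · have := congrFun h (Sum.inl (Sum.inr ⟨i.val, hi⟩))
      simpa [act] using this
    · rcases Nat.lt_or_ge i.val 105 with hi' | hi'
      · have h0 := congrFun h (Sum.inl (Sum.inl 0))
        have e : i = a₁ 0 := by
          apply Fin.ext
          have : (a₁ 0).val = 104 := by decide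
          omega
        rw [e]
        simpa [act] using h0
      · have h0 := congrFun h (Sum.inl (Sum.inl 35))
        have e : i = a₁ 35 := by
          apply Fin.ext
          have : (a₁ 35).val = 105 := by decide
          omega
        rw [e]
        simpa [act] using h0
  · rcases Nat.lt_or_ge i.val 104 with hi | hi
    · have h0 := congrFun h (Sum.inr (Sum.inr ⟨i.val / 2, by omega⟩))
      simp only [act, Sum.inr.injEq, Sum.inl.injEq, Prod.mk.injEq] at h0
      rcases Nat.even_or_odd' i.val with ⟨k, hk | hk⟩
      · have e : (⟨2 * (i.val / 2), by omega⟩ : Fin 106) = i := Fin.ext (by simp only; omega)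
        rw [e] at h0
        exact h0.1
      · have e : (⟨2 * (i.val / 2) + 1, by omega⟩ : Fin 106) = i := Fin.ext (by simp only; omega)
        rw [e] at h0
        exact h0.2
    · rcases Nat.lt_or_ge i.val 105 with hi' | hi'
      · have h0 := congrFun h (Sum.inr (Sum.inl (0, 0)))
        have e : i = a₂ 0 := by
          apply Fin.ext
          have : (a₂ 0).val = 104 := by decide
          omega
        rw [e]
        simp only [act, Sum.inr.injEq, Sum.inl.injEq, Prod.mk.injEq] at h0
        exact h0.1
      · have h0 := congrFun h (Sum.inr (Sum.inl (3, 3)))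
        have e : i = a₂ 3 := by
          apply Fin.ext
          have : (a₂ 3).val = 105 := by decide
          omega
        rw [e]
        simp only [act, Sum.inr.injEq, Sum.inl.injEq, Prod.mk.injEq] at h0
        exact h0.1

theorem minDegree_a_le : minDegree (Variant 106 a) ≤ 208 := by
  have hc : Fintype.card M = 208 := by simp [M]
  have := minDegree_le (S := Variant 106 a) M (by omega) (fun x => act x.val)
    (fun x y => act_mul x.val y.val)
    (fun x y h => by
      have := act_inj x.val y.val h
      cases x; cases y
      exact congrArg Variant.mk this)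
  omega

theorem rank_a : rank a = 2 := by
  have : Set.range a = {(104 : Fin 106), 105} := by
    apply Set.eq_of_subset_of_subset
    · rintro _ ⟨i, rfl⟩
      change f i = 104 ∨ f i = 105
      unfold f
      split_ifs
      · exact Or.inr rfl
      · exact Or.inl rfl
    · rintro _ (rfl | rfl)
      · exact ⟨0, by decide⟩
      · exact ⟨105, by decide⟩
  unfold rank
  rw [this, Set.ncard_pair (by decide)]

/-- The formula `μ(T_n^a) = 2 n - rank a` fails for some `n` and some `a` of rank `2`. -/
theorem result :
    ∃ (n : ℕ) (a : Function.End (Fin n)), 2 ≤ rank a ∧ minDegree (Variant n a) < 2 * n - rank a :=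
  ⟨106, a, rank_a.ge, by rw [rank_a]; exact lt_of_le_of_lt minDegree_a_le (by norm_num)⟩

end Pool.Agent.Results.MP_e4b752_al.MinDegree
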